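import Pool.Agent.SN22.Main

/-!
# Sticks from Morse presentations (MP_1888e6_gt)

Let a diagram of a knot or link be given by a Morse word, cut into pieces: local minima, local maxima and passes (one
strand goes over, or under, several consecutive strands); a branch of a local minimum may begin with a pass. If there
are `b` local minima and `r` passes (not counting those of the branches of the local minima), then the diagram is the
projection of a polygonal link with exactly `r + 3 b` edges. Since every crossing is a pass, the stick number of a knot
with a diagram with `c` crossings and `b` local minima is at most `c + 3 b`.
-/

set_option autoImplicit false

namespace Pool.Agent.Results.MP_1888e6_gt.MorseSticks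

open Pool.Agent.SN22

theorem result (ps : List Piece) (h : run 0 (ps.flatMap Piece.word) = some 0) :
    ∃ L : Set P3, HasWord L (ps.flatMap Piece.word) ∧
      IsPolyLink L ((ps.map Piece.passes).sum + 3 * (ps.map Piece.minima).sum) :=
  main ps h

end Pool.Agent.Results.MP_1888e6_gt.MorseSticks
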