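import Pool.Agent.SN78.MFin

/-!
# Stick number at most crossing number plus three (MP_1888e6_gt)

A diagram of a link on the sphere is given combinatorially: a finite set `W` of crossings, each with four
darts (ends of edges) numbered by `ZMod 4` counterclockwise, and the involution `σ` of the darts which
pairs the two ends of each edge; `ov v = true` says that at the crossing `v` the strand through the darts
`0, 2` is above the strand through the darts `1, 3`.

The theorem: every prime diagram of a knot with `n ≥ 3` crossings can be changed by flypes (which do not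
change the knot) into a diagram which is the projection of a polygon in space with exactly `n + 3` edges.
-/

set_option autoImplicit false

namespace Pool.Agent.Results.MP_1888e6_gt.PrimePlusThree

open Sum

/-! ### diagrams -/

section
variable {W : Type}

/-- the number of edges between the set `A` of crossings and its complement -/
noncomputable def cut (σ : W × ZMod 4 → W × ZMod 4) (A : Finset W) : ℕ :=
  Nat.card {d : W × ZMod 4 // d.1 ∈ A ∧ (σ d).1 ∉ A}

/-- the faces: the orbits of the walk `d ↦ (σ d).1, (σ d).2 - 1`, which goes around the face to the left of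
the dart `d` -/
abbrev Face (σ : W × ZMod 4 → W × ZMod 4) : Type :=
  Quot fun d d' : W × ZMod 4 => ((σ d).1, (σ d).2 - 1) = d'

/-- Prime diagrams on the sphere: each nontrivial set of crossings is joined with its complement by at
least four edges (so the diagram is connected, and no closed curve which meets it in two points
separates the crossings), and the Euler formula holds (`n` crossings, `2 n` edges, `n + 2` faces). -/
structure IsPrime [Fintype W] (σ : W × ZMod 4 → W × ZMod 4) : Prop where
  inv : ∀ d, σ (σ d) = d
  cut4 : ∀ A : Finset W, A.Nonempty → A ≠ Finset.univ → 4 ≤ cut σ A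
  euler : Nat.card (Face σ) = Fintype.card W + 2

/-- One component: walking along the link (along an edge, then straight through the crossing) one comes
from any strand to any other one. -/
def IsKnot (σ : W × ZMod 4 → W × ZMod 4) : Prop :=
  ∀ d d' : W × ZMod 4, ∃ n : ℕ,
    (fun e => ((σ e).1, (σ e).2 + 2))^[n] d = d' ∨ (fun e => ((σ e).1, (σ e).2 + 2))^[n] d = (d'.1, d'.2 + 2)

end

/-- link diagrams -/
structure Diagram where
  W : Type
  σ : W × ZMod 4 → W × ZMod 4
  ov : W → Bool

/-! ### tangles and flypes -/

/-- the darts of a tangle with the crossings `V`: darts of crossings, and the four ports, which are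
numbered counterclockwise (`0` = northeast, `1` = northwest, `2` = southwest, `3` = southeast) -/
inductive TDart (V : Type)
  | x (v : V) (i : ZMod 4)
  | port (i : ZMod 4)

/-- a tangle diagram (without over/under data): the map which pairs the ends of the edges; an edge ends
at darts of crossings or at ports -/
abbrev Tangle (V : Type) := TDart V → TDart V

/-- the tangle with one crossing -/
def crossing : Tangle Unit
  | .x _ i => .port i
  | .port i => .x () i

section
variable {V V' : Type}

/-- The sum of two tangles: the port `0` of the left one is joined with the port `1` of the right one, and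
the port `3` of the left one with the port `2` of the right one. -/
def add (T : Tangle V) (T' : Tangle V') : Tangle (V ⊕ V') :=
  let left : TDart V → TDart (V ⊕ V') := fun d => match d with
    | .x v i => .x (inl v) i
    | .port i => if i = 0 ∨ i = 3 then
        match T' (.port (if i = 0 then 1 else 2)) with
        | .x v j => .x (inr v) j
        | .port _ => .port i
      else .port i
  let right : TDart V' → TDart (V ⊕ V') := fun d => match d with
    | .x v i => .x (inr v) i
    | .port i => if i = 1 ∨ i = 2 then
        match T (.port (if i = 1 then 0 else 3)) with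
        | .x v j => .x (inl v) j
        | .port _ => .port i
      else .port i
  fun d => match d with
    | .x (inl v) i => left (T (.x v i))
    | .x (inr v) i => right (T' (.x v i))
    | .port i => if i = 1 ∨ i = 2 then left (T (.port i)) else right (T' (.port i))

/-- the reflection of the darts in the horizontal axis -/
def flipDart : TDart V → TDart V
  | .x v i => .x v (3 - i)
  | .port i => .port (3 - i)

/-- The tangle turned over, i.e. rotated by a half turn around the horizontal axis.  The projection is
reflected.  (Over and under are also exchanged; so the strand through the darts `0, 2` of a crossing is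
above before if and only if the strand through the new darts `0, 2` is above afterwards.) -/
def turnOver (T : Tangle V) : Tangle V := fun d => flipDart (T (flipDart d))

/-- the closure of a tangle by one more crossing `none`; the port `i` is joined with the dart `- i` -/
def close (T : Tangle V) : Option V × ZMod 4 → Option V × ZMod 4
  | (some v, i) => match T (.x v i) with
    | .x w j => (some w, j)
    | .port j => (none, - j)
  | (none, i) => match T (.port (- i)) with
    | .x w j => (some w, j)
    | .port j => (none, - j)

/-- the diagram obtained by joining two tangles on the sphere, the port `i` with the port `1 - i` -/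
def join (T : Tangle V) (T' : Tangle V') : (V ⊕ V') × ZMod 4 → (V ⊕ V') × ZMod 4
  | (inl v, i) => match T (.x v i) with
    | .x w j => (inl w, j)
    | .port j => match T' (.port (1 - j)) with
      | .x w k => (inr w, k)
      | .port _ => (inl v, i)
  | (inr v, i) => match T' (.x v i) with
    | .x w j => (inr w, j)
    | .port j => match T (.port (1 - j)) with
      | .x w k => (inl w, k)
      | .port _ => (inr v, i)

end

/-- Isomorphisms of diagrams (the darts of the crossing `v` are renumbered by the rotation `c v`), and
flypes: in a diagram composed of a crossing, a tangle `T` to its right, and a tangle `R`, the tangle `T`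
is turned over and the crossing moves to its right side.  `T`, `R` are prime (their closures are). -/
inductive FlypeStep : Diagram → Diagram → Prop
  | iso {D D' : Diagram} (e : D.W ≃ D'.W) (c : D.W → ZMod 4)
      (h : ∀ v i, D'.σ (e v, i + c v) = (e (D.σ (v, i)).1, (D.σ (v, i)).2 + c (D.σ (v, i)).1))
      (hov : ∀ v, D'.ov (e v) = xor (D.ov v) (decide (c v = 1 ∨ c v = 3))) : FlypeStep D D'
  | flype {V V' : Type} [Fintype V] [Fintype V'] [Nonempty V] [Nonempty V'] (T : Tangle V)
      (R : Tangle V') (hT : IsPrime (close T)) (hR : IsPrime (close R)) (x : Bool) (o : V → Bool) (o' : V' → Bool) :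
      FlypeStep ⟨(Unit ⊕ V) ⊕ V', join (add crossing T) R,
          Sum.elim (Sum.elim (fun _ => x) o) o'⟩
        ⟨(V ⊕ Unit) ⊕ V', join (add (turnOver T) crossing) R,
          Sum.elim (Sum.elim o (fun _ => x)) o'⟩

/-- a sequence of flypes and isomorphisms and their inverses leads from one diagram to the other one -/
def FlypeEquivalent : Diagram → Diagram → Prop := Relation.EqvGen FlypeStep

/-! ### polygons in space -/

/-- orthogonal projection to the plane -/
def pr (p : Fin 3 → ℝ) : Fin 2 → ℝ := ![p 0, p 1]

/-- The beads of a polygon: `inl (v, i)` is the point over the crossing `v` on the strand of the dart `i`,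
seen as the start of the piece which leaves the crossing in the direction of this dart;
`inr (a, b)` is the vertex `a` as the start of one of its two edges. -/
abbrev Bead (W N : Type) := (W × ZMod 4) ⊕ (N × Bool)

/-- following the polygon from the bead `b` along the piece which starts there, and through vertices
of the polygon, the first crossing is met at the dart `d` -/
inductive Leads {W N : Type} (adj : Bead W N → Bead W N) : Bead W N → W × ZMod 4 → Prop
  | here {b d} : adj b = .inl d → Leads adj b d
  | bend {b a c d} : adj b = .inr (a, c) → Leads adj (.inr (a, !c)) d → Leads adj b d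

/-- the point of a bead: `Q v i` for the dart `i` of the crossing `v`, `Z a` for the vertex `a` -/
def point {W N : Type} (Z : N → Fin 3 → ℝ) (Q : W → ZMod 4 → Fin 3 → ℝ) : Bead W N → Fin 3 → ℝ
  | .inl (v, i) => Q v i
  | .inr (a, _) => Z a

/-- two beads at the same crossing or at the same vertex -/
def SameSite {W N : Type} : Bead W N → Bead W N → Prop
  | .inl (v, _), .inl (w, _) => v = w
  | .inr (a, _), .inr (b, _) => a = b
  | _, _ => False

/-- A closed polygonal curve (or link) in space with the vertices `Z a`, `a : N`, whose projection is the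
diagram `(σ, ov)`.  `adj` pairs the beads which are joined by a straight piece of the curve.  So the
curve is the union of the segments from `point b` to `point (adj b)`; it goes straight through each
crossing (`straight`), so its only vertices are the points `Z a`, two edges end at each of them, and it
has exactly as many edges as vertices.  The two strands at a crossing have the same projection (`proj`)
and different heights (`height`); the projections of the four pieces at a crossing are in
counterclockwise order (`orient`, positive determinants); the projection has no other multiple points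
(`simple`, `nondeg`).  The dart `d` is joined with the dart `σ d` (`reach`) and there are no components
without crossings (`cover`). -/
structure IsPolygonOf {W N : Type} (σ : W × ZMod 4 → W × ZMod 4) (ov : W → Bool)
    (Z : N → Fin 3 → ℝ) (Q : W → ZMod 4 → Fin 3 → ℝ) (adj : Bead W N → Bead W N) : Prop where
  inv : ∀ b, adj (adj b) = b
  ne : ∀ b, adj b ≠ b
  opp : ∀ v i, Q v (i + 2) = Q v i
  proj : ∀ v i, pr (Q v (i + 1)) = pr (Q v i)
  height : ∀ v, if ov v then Q v 1 2 < Q v 0 2 else Q v 0 2 < Q v 1 2
  straight : ∀ v i, Q v i ∈
    openSegment ℝ (point Z Q (adj (.inl (v, i)))) (point Z Q (adj (.inl (v, i + 2))))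
  orient : ∀ v i, 0 <
    (point Z Q (adj (.inl (v, i))) 0 - Q v i 0) * (point Z Q (adj (.inl (v, i + 1))) 1 - Q v i 1) -
    (point Z Q (adj (.inl (v, i))) 1 - Q v i 1) * (point Z Q (adj (.inl (v, i + 1))) 0 - Q v i 0)
  nondeg : ∀ b, pr (point Z Q b) ≠ pr (point Z Q (adj b))
  simple : ∀ b c, c ≠ b → c ≠ adj b → ∀ x : Fin 2 → ℝ,
    x ∈ segment ℝ (pr (point Z Q b)) (pr (point Z Q (adj b))) →
    x ∈ segment ℝ (pr (point Z Q c)) (pr (point Z Q (adj c))) →
    ∃ b' c', (b' = b ∨ b' = adj b) ∧ (c' = c ∨ c' = adj c) ∧ SameSite b' c' ∧
      x = pr (point Z Q b')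
  reach : ∀ d, Leads adj (.inl d) (σ d)
  cover : ∀ a c, ∃ d, Leads adj (.inr (a, c)) d

/-- the diagram is the projection of a polygon in space with exactly `n` edges -/
def HasPolygon (D : Diagram) (n : ℕ) : Prop :=
  ∃ (N : Type) (_ : Fintype N) (Z : N → Fin 3 → ℝ) (Q : D.W → ZMod 4 → Fin 3 → ℝ)
    (adj : Bead D.W N → Bead D.W N), Fintype.card N = n ∧ IsPolygonOf D.σ D.ov Z Q adj

/-! ### translation to the definitions of the modules which prove the theorem -/

private def toT {V : Type} : SN78.SD V Empty Unit → TDart V
  | .x v i => .x v i
  | .f e _ => e.elim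
  | .o _ i => .port i

private def ofT {V : Type} : TDart V → SN78.SD V Empty Unit
  | .x v i => .x v i
  | .port i => .o () i

private def tr {V : Type} (α : SN78.Tg V) : Tangle V := fun d => toT (α (ofT d))

private theorem tr_crossing : tr SN78.single = crossing := by
  funext d
  cases d <;> rfl

private theorem tr_add {V V' : Type} (α : SN78.Tg V) (β : SN78.Tg V') :
    add (tr α) (tr β) = tr (SN78.sum α β) := by
  have hl : ∀ d : SN78.SD V Empty Unit, toT (SN78.lf β d) = (match toT d with
      | .x v i => TDart.x (inl v) i
      | .port i => if i = 0 ∨ i = 3 then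
          match tr β (.port (if i = 0 then 1 else 2)) with
          | .x v j => TDart.x (inr v) j
          | .port _ => TDart.port i
        else TDart.port i) := by
    intro d
    rcases d with ⟨v, i⟩ | ⟨e, i⟩ | ⟨_, i⟩
    · rfl
    · exact e.elim
    · by_cases hi : i = 0 ∨ i = 3
      · simp only [SN78.lf, toT, if_pos hi, tr, ofT]
        rcases β (.o () (if i = 0 then 1 else 2)) with ⟨v, j⟩ | ⟨e, j⟩ | ⟨_, j⟩
        · rfl
        · exact e.elim
        · rfl
      · simp only [SN78.lf, toT, if_neg hi]
  have hr : ∀ d : SN78.SD V' Empty Unit, toT (SN78.rg α d) = (match toT d with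
      | .x v i => TDart.x (inr v) i
      | .port i => if i = 1 ∨ i = 2 then
          match tr α (.port (if i = 1 then 0 else 3)) with
          | .x v j => TDart.x (inl v) j
          | .port _ => TDart.port i
        else TDart.port i) := by
    intro d
    rcases d with ⟨v, i⟩ | ⟨e, i⟩ | ⟨_, i⟩
    · rfl
    · exact e.elim
    · by_cases hi : i = 1 ∨ i = 2
      · simp only [SN78.rg, toT, if_pos hi, tr, ofT]
        rcases α (.o () (if i = 1 then 0 else 3)) with ⟨v, j⟩ | ⟨e, j⟩ | ⟨_, j⟩
        · rfl
        · exact e.elim
        · rfl
      · simp only [SN78.rg, toT, if_neg hi]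
  funext d
  rcases d with ⟨v | v, i⟩ | i
  · exact (hl (α (.x v i))).symm
  · exact (hr (β (.x v i))).symm
  · by_cases hi : i = 1 ∨ i = 2
    · simp only [add, tr, ofT, SN78.sum, if_pos hi]
      exact (hl (α (.o () i))).symm
    · simp only [add, tr, ofT, SN78.sum, if_neg hi]
      exact (hr (β (.o () i))).symm

private theorem tr_turnOver {V : Type} (α : SN78.Tg V) : turnOver (tr α) = tr (SN78.refl α) := by
  have h1 : ∀ d : TDart V, ofT (flipDart d) = SN78.rfl4 (ofT d) := by
    intro d
    cases d <;> rfl
  have h2 : ∀ d : SN78.SD V Empty Unit, flipDart (toT d) = toT (SN78.rfl4 d) := by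
    intro d
    rcases d with ⟨v, i⟩ | ⟨e, i⟩ | ⟨_, i⟩
    · rfl
    · exact e.elim
    · rfl
  funext d
  simp only [turnOver, tr, SN78.refl, h1, h2]

private theorem tr_close {V : Type} (α : SN78.Tg V) : close (tr α) = SN78.closeA α := by
  funext d
  rcases d with ⟨v | v, i⟩
  · simp only [close, tr, ofT, SN78.closeA]
    rcases α (.o () (-i)) with ⟨w, j⟩ | ⟨e, j⟩ | ⟨_, j⟩
    · rfl
    · exact e.elim
    · rfl
  · simp only [close, tr, ofT, SN78.closeA]
    rcases α (.x v i) with ⟨w, j⟩ | ⟨e, j⟩ | ⟨_, j⟩
    · rfl
    · exact e.elim
    · rfl

private theorem tr_join {V V' : Type} (α : SN78.Tg V) (β : SN78.Tg V') :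
    join (tr α) (tr β) = SN78.join α β := by
  funext d
  rcases d with ⟨v | v, i⟩
  · simp only [join, tr, ofT, SN78.join]
    rcases α (.x v i) with ⟨w, j⟩ | ⟨e, j⟩ | ⟨_, j⟩
    · rfl
    · exact e.elim
    · simp only [toT]
      rcases β (.o () (1 - j)) with ⟨w, k⟩ | ⟨e, k⟩ | ⟨_, k⟩
      · rfl
      · exact e.elim
      · rfl
  · simp only [join, tr, ofT, SN78.join]
    rcases β (.x v i) with ⟨w, j⟩ | ⟨e, j⟩ | ⟨_, j⟩
    · rfl
    · exact e.elim
    · simp only [toT]
      rcases α (.o () (1 - j)) with ⟨w, k⟩ | ⟨e, k⟩ | ⟨_, k⟩
      · rfl
      · exact e.elim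
      · rfl

private theorem prime_of {W : Type} [Fintype W] {σ : W × ZMod 4 → W × ZMod 4} (h : SN78.PMap σ) :
    IsPrime σ :=
  ⟨h.inv, h.cut4, h.euler⟩

private def toD (D : SN78.Diag) : Diagram := ⟨D.W, D.σ, D.ov⟩

private theorem step_of {D D' : SN78.Diag} (h : SN78.FlypeStep D D') :
    FlypeStep (toD D) (toD D') := by
  cases h with
  | iso e c h hov => exact FlypeStep.iso (D := toD D) (D' := toD D') e c h hov
  | flype T R hT hR x o o' =>
    have h1 : IsPrime (close (tr T.α)) := by
      rw [tr_close]; exact prime_of hT
    have h2 : IsPrime (close (tr R.α)) := by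
      rw [tr_close]; exact prime_of hR
    have : Nonempty T.V := Fintype.card_pos_iff.1 hT.card_pos
    have : Nonempty R.V := Fintype.card_pos_iff.1 hR.card_pos
    have h3 := FlypeStep.flype (tr T.α) (tr R.α) h1 h2 x o o'
    rw [← tr_crossing, tr_turnOver, tr_add, tr_add, tr_join, tr_join] at h3
    exact h3

private theorem equiv_of {D D' : SN78.Diag} (h : SN78.FlypeEq D D') :
    FlypeEquivalent (toD D) (toD D') := by
  induction h with
  | rel _ _ h => exact Relation.EqvGen.rel _ _ (step_of h)
  | refl _ => exact Relation.EqvGen.refl _
  | symm _ _ _ ih => exact Relation.EqvGen.symm _ _ ih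
  | trans _ _ _ _ _ ih ih' => exact Relation.EqvGen.trans _ _ _ ih ih'

private theorem leads_of {W N : Type} {adj : Bead W N → Bead W N} {b : Bead W N}
    {d : W × ZMod 4} (h : SN78.Leads adj b d) : Leads adj b d := by
  induction h with
  | here h => exact Leads.here h
  | bend h _ ih => exact Leads.bend h ih

private theorem point_eq {W N : Type} (Z : N → Fin 3 → ℝ) (Q : W → ZMod 4 → Fin 3 → ℝ) :
    SN78.bpt Z Q = point Z Q := by
  funext b
  rcases b with ⟨v, i⟩ | ⟨a, c⟩ <;> rfl

private theorem same_of {W N : Type} {b c : Bead W N} (h : SN78.SameSite b c) : SameSite b c := by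
  rcases b with ⟨v, i⟩ | ⟨a, k⟩ <;> rcases c with ⟨w, j⟩ | ⟨a', k'⟩ <;> exact h

private theorem polygon_of {D : SN78.Diag} {n : ℕ} (h : SN78.HasPolygon D.σ D.ov n) :
    HasPolygon (toD D) n := by
  obtain ⟨N, fN, Z, Q, adj, hc, hp⟩ := h
  refine ⟨N, fN, Z, Q, adj, hc, hp.inv, hp.ne, hp.opp, hp.proj, hp.height, ?_, ?_, ?_, ?_, ?_, ?_⟩
  · have := hp.straight
    rw [point_eq] at this
    exact this
  · have := hp.orient
    rw [point_eq] at this
    exact this
  · have := hp.nondeg
    rw [point_eq] at this
    exact this
  · intro b c h1 h2 x hx hx'
    have := hp.simple b c h1 h2 x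
    rw [point_eq] at this
    obtain ⟨b', c', hb, hc', hs, he⟩ := this hx hx'
    exact ⟨b', c', hb, hc', same_of hs, he⟩
  · exact fun d => leads_of (hp.reach d)
  · intro a c
    obtain ⟨d, hd⟩ := hp.cover a c
    exact ⟨d, leads_of hd⟩

/-- Every prime diagram of a knot with `n ≥ 3` crossings is flype equivalent to the projection of a
polygon in space with exactly `n + 3` edges. -/
theorem result (D : Diagram) [Fintype D.W] (hp : IsPrime D.σ) (hk : IsKnot D.σ)
    (h3 : 3 ≤ Fintype.card D.W) :
    ∃ D' : Diagram, FlypeEquivalent D D' ∧ HasPolygon D' (Fintype.card D.W + 3) := by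
  have h := SN78.pmap_of hp.inv hp.cut4 hp.euler (by omega)
  obtain ⟨D', h1, h2⟩ := SN78.main h hk h3 D.ov
  exact ⟨toD D', equiv_of h1, polygon_of h2⟩

end Pool.Agent.Results.MP_1888e6_gt.PrimePlusThree
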